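import Pool.Agent.Lib.MP_429c3d_al.Fit

set_option autoImplicit false

namespace Pool.Agent.Results.MP_429c3d_al.FiniteCentralizer

/-- Let `G` satisfy the law `[x,y] = [x, n y]` with `n > 1`.  If some finite set `S` of pairwise
commuting elements has a centralizer in the derived subgroup that is finite modulo the centre,
then `G` is abelian. -/
theorem result (n : ℕ) (hn : 1 < n) (G : Type*) [Group G]
    (h : ∀ x y : G, x⁻¹ * y⁻¹ * x * y = (fun z : G => z⁻¹ * y⁻¹ * z * y)^[n] x)
    (S : Finset G) (hS : ∀ s ∈ S, ∀ t ∈ S, s * t = t * s)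
    (hf : (Subgroup.center G).relIndex (Subgroup.centralizer (S : Set G) ⊓ commutator G) ≠ 0) :
    ∀ a b : G, a * b = b * a := by
  obtain ⟨m, rfl⟩ : ∃ m, n = m + 2 := ⟨n - 2, by omega⟩
  have h' : Pool.Agent.Lib.MP_429c3d_al.Fit.Gup G m := h
  exact h'.comm_of_le (h'.le_center _ S hS hf)

end Pool.Agent.Results.MP_429c3d_al.FiniteCentralizer
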