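import Pool.Agent.Lib.MP_429c3d_al.Four

set_option autoImplicit false

namespace Pool.Agent.Results.MP_429c3d_al.LawFour

/-- Gupta's question for `n = 4`: a group in which `[x,y] = [x,y,y,y,y]` for all `x`, `y`
is abelian. -/
theorem result (G : Type*) [Group G]
    (h : ∀ x y : G, x⁻¹ * y⁻¹ * x * y = (fun z : G => z⁻¹ * y⁻¹ * z * y)^[4] x) :
    ∀ a b : G, a * b = b * a :=
  Pool.Agent.Lib.MP_429c3d_al.Law.comm_four h

end Pool.Agent.Results.MP_429c3d_al.LawFour
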