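import Pool.Agent.Lib.MP_429c3d_al.NgTop

set_option autoImplicit false

namespace Pool.Agent.Results.MP_429c3d_al.NonAbelian

/-- For some `n ≥ 4` there is a non abelian group with the law `[x, y] = [x, _n y]`. -/
theorem result : ∃ n : ℕ, 4 ≤ n ∧ ∃ (G : Type) (_ : Group G), (∃ a b : G, a * b ≠ b * a) ∧
    ∀ x y : G, x⁻¹ * y⁻¹ * x * y = (fun z : G => z⁻¹ * y⁻¹ * z * y)^[n] x := by
  obtain ⟨m, H, _, hm, ⟨a, b, hab⟩, hl⟩ := Pool.Agent.Lib.MP_429c3d_al.Ng.exists_group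
  refine ⟨m * 3 + 1, by omega, H, inferInstance, ⟨a, b, hab⟩, fun x y => ?_⟩
  have e : x⁻¹ * y⁻¹ * x * y = (x⁻¹ * y * x)⁻¹ * y := by group
  have hc : IsConj y (x⁻¹ * y * x) := isConj_iff.2 ⟨x⁻¹, by group⟩
  have h : (fun z : H => z⁻¹ * y⁻¹ * z * y)^[m] (x⁻¹ * y⁻¹ * x * y) = x⁻¹ * y⁻¹ * x * y := by
    rw [e, Pool.Agent.Lib.MP_429c3d_al.Ng.iter_cs, hl y _ hc]
    group
  rw [Function.iterate_succ_apply, Function.iterate_mul]
  exact (Function.iterate_fixed h 3).symm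

end Pool.Agent.Results.MP_429c3d_al.NonAbelian
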